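import Pool.Agent.Work.MP_862369_co.Low2

/-- For odd `q = r ^ e`, `k ≤ 2`, `m ≥ 1` and `(k + 1) (2 m - 1) ≤ e`, the parabolic quadric
`Q(4,q)` has a partial spread (a set of pairwise disjoint totally singular lines) with at least
`q r ^ (k m) + 1` elements. For `e = 3`, `k = 2`, `m = 1` this is `q ^ (5/3) + 1`, and for
`e = 2`, `k = m = 1` it is `q ^ (3/2) + 1`. -/
theorem Pool.Agent.Results.MP_862369_co.CubicLower.result
    (F : Type) [Field F] [Fintype F] (hodd : Odd (Fintype.card F))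
    (r e k m : ℕ) (hq : Fintype.card F = r ^ e) (hk : k ≤ 2) (hm : 1 ≤ m)
    (he : (k + 1) * (2 * m - 1) ≤ e)
    (V : Type) [AddCommGroup V] [Module F V] (hV : Module.finrank F V = 5)
    (Q : QuadraticForm F V) (hQ : Q.Nondegenerate) :
    ∃ S : Finset (Submodule F V), (∀ L ∈ S, Module.finrank F L = 2 ∧ ∀ v ∈ L, Q v = 0) ∧
      (∀ L ∈ S, ∀ L' ∈ S, L ≠ L' → L ⊓ L' = ⊥) ∧ r ^ (e + k * m) + 1 ≤ S.card :=
  Pool.Agent.Work.MP_862369_co.Low.ext_lower hodd hq hk hm he hV Q hQ
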