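import Pool.Agent.Work.MP_862369_co.Main

/-- For odd `q ≥ 2000`, a partial spread of the parabolic quadric `Q(4,q)` (a set of pairwise
disjoint totally singular lines) has at most `q² - q√q/25` elements. -/
theorem Pool.Agent.Results.MP_862369_co.ParabolicQ4.result
    (F : Type) [Field F] [Fintype F] (hodd : Odd (Fintype.card F)) (hq : 2000 ≤ Fintype.card F)
    (V : Type) [AddCommGroup V] [Module F V] (hV : Module.finrank F V = 5)
    (Q : QuadraticForm F V) (hQ : Q.Nondegenerate) (S : Finset (Submodule F V))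
    (hS : ∀ L ∈ S, Module.finrank F L = 2 ∧ ∀ v ∈ L, Q v = 0)
    (hd : ∀ L ∈ S, ∀ L' ∈ S, L ≠ L' → L ⊓ L' = ⊥) :
    (S.card : ℝ) ≤ (Fintype.card F : ℝ) ^ 2 -
      (Fintype.card F : ℝ) * Real.sqrt (Fintype.card F) / 25 :=
  Pool.Agent.Work.MP_862369_co.main hodd hq hV Q hQ S hS hd
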