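import Pool.Agent.Work.MP_862369_co.Low3

/-- For odd `q = p ^ e`, `p` prime, and `6 k + 1 ≤ e`, the parabolic quadric `Q(4,q)` has a partial
spread (a set of pairwise disjoint totally singular lines) with at least
`(3/8) q p ^ (2 k) √p + 1` elements. For `e = 1`, `k = 0` this is `(3/8) p √p + 1`. -/
theorem Pool.Agent.Results.MP_862369_co.PrimeLower.result
    (F : Type) [Field F] [Fintype F] (hodd : Odd (Fintype.card F))
    (p e k : ℕ) (hp : p.Prime) (hq : Fintype.card F = p ^ e) (he : 6 * k + 1 ≤ e)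
    (V : Type) [AddCommGroup V] [Module F V] (hV : Module.finrank F V = 5)
    (Q : QuadraticForm F V) (hQ : Q.Nondegenerate) :
    ∃ S : Finset (Submodule F V), (∀ L ∈ S, Module.finrank F L = 2 ∧ ∀ v ∈ L, Q v = 0) ∧
      (∀ L ∈ S, ∀ L' ∈ S, L ≠ L' → L ⊓ L' = ⊥) ∧
      3 / 8 * ((p : ℝ) ^ (e + 2 * k) * Real.sqrt p) + 1 ≤ S.card :=
  Pool.Agent.Work.MP_862369_co.Low.mixed_lower hodd hp hq he hV Q hQ
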