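import Pool.Agent.Work.MP_862369_co.UpCore

/-- For a prime `p ≥ 3000`, a partial spread of the parabolic quadric `Q(4,p)` (a set of pairwise
disjoint totally singular lines) has at most `(1 - 1/2000) p ^ 2` elements. -/
theorem Pool.Agent.Results.MP_862369_co.PrimeUpper.result
    (F : Type) [Field F] [Fintype F] (hp : (Fintype.card F).Prime) (hq : 3000 ≤ Fintype.card F)
    (V : Type) [AddCommGroup V] [Module F V] (hV : Module.finrank F V = 5)
    (Q : QuadraticForm F V) (hQ : Q.Nondegenerate) (S : Finset (Submodule F V))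
    (hS : ∀ L ∈ S, Module.finrank F L = 2 ∧ ∀ v ∈ L, Q v = 0)
    (hd : ∀ L ∈ S, ∀ L' ∈ S, L ≠ L' → L ⊓ L' = ⊥) :
    2000 * S.card ≤ 1999 * Fintype.card F ^ 2 :=
  Pool.Agent.Work.MP_862369_co.Up.main2 hp hq hV Q hQ S hS hd
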